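import Pool.Agent.Lib.MP_eee7a8_ag.TB.IfaceA

/-!
# MFBG: the numbers of strands of the 15 types at a quadrilateral
-/

open Matrix

namespace Pool.Agent.Lib.MP_eee7a8_ag.TB.AMfbg

/-! ## Crossing in terms of ranks -/

/-- Crossing of pairs of natural numbers. -/
def cN (a b c d : ℕ) : Bool :=
  (((Nat.blt a c && Nat.blt c b) || (Nat.blt b c && Nat.blt c a)) &&
    ((Nat.blt a d && Nat.blt b d) || (Nat.blt d a && Nat.blt d b))) ||
  (((Nat.blt a c && Nat.blt b c) || (Nat.blt c a && Nat.blt c b)) &&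
    ((Nat.blt a d && Nat.blt d b) || (Nat.blt b d && Nat.blt d a)))

theorem cN_iff {a b c d : ℕ} : cN a b c d = true ↔
    (((a < c ∧ c < b) ∨ (b < c ∧ c < a)) ∧ ((a < d ∧ b < d) ∨ (d < a ∧ d < b))) ∨
    (((a < c ∧ b < c) ∨ (c < a ∧ c < b)) ∧ ((a < d ∧ d < b) ∨ (b < d ∧ d < a))) := by
  unfold cN
  simp only [Bool.or_eq_true, Bool.and_eq_true, Nat.blt_eq]

theorem cN_swapL {a b c d : ℕ} (h : cN a b c d = true) : cN b a c d = true := by
  rw [cN_iff] at *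
  tauto

theorem cN_swapR {a b c d : ℕ} (h : cN a b c d = true) : cN a b d c = true := by
  rw [cN_iff] at *
  tauto

theorem cN_ne {a b c d : ℕ} (h : cN a b c d = true) : a ≠ b ∧ c ≠ d := by
  rw [cN_iff] at h
  constructor
  · rintro rfl; omega
  · rintro rfl; omega

/-- Contribution of the vertex `v` to the rank of `x`. -/
noncomputable def rv (v x : Cusp) : ℕ := (if v ≤ x then 1 else 0) + (if v < x then 1 else 0)

theorem rv_mono (v : Cusp) {x y : Cusp} (h : x ≤ y) : rv v x ≤ rv v y := by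
  unfold rv
  have h1 : (if v ≤ x then 1 else 0) ≤ (if v ≤ y then 1 else 0) := by
    split_ifs with h2 h3 <;> first | exact absurd (h2.trans h) h3 | omega
  have h4 : (if v < x then 1 else 0) ≤ (if v < y then 1 else 0) := by
    split_ifs with h2 h3 <;> first | exact absurd (lt_of_lt_of_le h2 h) h3 | omega
  omega

theorem rv_self (v : Cusp) : rv v v = 1 := by unfold rv; simp

theorem rv_lt {v x : Cusp} (h : x < v) : rv v x = 0 := by
  unfold rv; simp [not_le.2 h, not_lt.2 h.le]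

theorem rv_gt {v x : Cusp} (h : v < x) : rv v x = 2 := by
  unfold rv; simp [h, h.le]

theorem rv_le (v x : Cusp) : rv v x ≤ 2 := by unfold rv; split_ifs <;> omega

/-- The rank of `x` with respect to four cusps. -/
noncomputable def rk (a f c d x : Cusp) : ℕ := rv a x + rv f x + rv c x + rv d x

variable {a f c d : Cusp}

theorem rk_mono {x y : Cusp} (h : x ≤ y) : rk a f c d x ≤ rk a f c d y := by
  unfold rk
  have h1 := rv_mono a h
  have h2 := rv_mono f h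
  have h3 := rv_mono c h
  have h4 := rv_mono d h
  omega

theorem lt_of_rk {x y : Cusp} (h : rk a f c d x < rk a f c d y) : x < y := by
  by_contra hc
  have := rk_mono (a := a) (f := f) (c := c) (d := d) (not_lt.1 hc)
  omega

/-- `v` is a vertex. -/
def Vx (a f c d v : Cusp) : Prop := v = a ∨ v = f ∨ v = c ∨ v = d

theorem rk_lt_vertex {x v : Cusp} (hv : Vx a f c d v) (h : x < v) :
    rk a f c d x < rk a f c d v := by
  unfold rk
  have h1 := rv_mono a h.le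
  have h2 := rv_mono f h.le
  have h3 := rv_mono c h.le
  have h4 := rv_mono d h.le
  have h5 := rv_self v
  have h6 := rv_lt h
  rcases hv with rfl | rfl | rfl | rfl <;> omega

theorem rk_vertex_lt {x v : Cusp} (hv : Vx a f c d v) (h : v < x) :
    rk a f c d v < rk a f c d x := by
  unfold rk
  have h1 := rv_mono a h.le
  have h2 := rv_mono f h.le
  have h3 := rv_mono c h.le
  have h4 := rv_mono d h.le
  have h5 := rv_self v
  have h6 := rv_gt h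
  rcases hv with rfl | rfl | rfl | rfl <;> omega

theorem rk_le (x : Cusp) : rk a f c d x ≤ 8 := by
  unfold rk
  have h1 := rv_le a x
  have h2 := rv_le f x
  have h3 := rv_le c x
  have h4 := rv_le d x
  omega

theorem cross_of_rk {x y x' y' : Cusp}
    (h : cN (rk a f c d x) (rk a f c d y) (rk a f c d x') (rk a f c d y') = true) :
    Cross x y x' y' := by
  rw [cN_iff] at h
  rw [cross_iff]
  have l : ∀ {x y : Cusp}, rk a f c d x < rk a f c d y → x < y := lt_of_rk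
  rcases h with ⟨h1 | h1, h2 | h2⟩ | ⟨h1 | h1, h2 | h2⟩
  · exact Or.inl ⟨Or.inl ⟨l h1.1, l h1.2⟩, Or.inl ⟨l h2.1, l h2.2⟩⟩
  · exact Or.inl ⟨Or.inl ⟨l h1.1, l h1.2⟩, Or.inr ⟨l h2.1, l h2.2⟩⟩
  · exact Or.inl ⟨Or.inr ⟨l h1.1, l h1.2⟩, Or.inl ⟨l h2.1, l h2.2⟩⟩
  · exact Or.inl ⟨Or.inr ⟨l h1.1, l h1.2⟩, Or.inr ⟨l h2.1, l h2.2⟩⟩
  · exact Or.inr ⟨Or.inl ⟨l h1.1, l h1.2⟩, Or.inl ⟨l h2.1, l h2.2⟩⟩
  · exact Or.inr ⟨Or.inl ⟨l h1.1, l h1.2⟩, Or.inr ⟨l h2.1, l h2.2⟩⟩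
  · exact Or.inr ⟨Or.inr ⟨l h1.1, l h1.2⟩, Or.inl ⟨l h2.1, l h2.2⟩⟩
  · exact Or.inr ⟨Or.inr ⟨l h1.1, l h1.2⟩, Or.inr ⟨l h2.1, l h2.2⟩⟩

theorem rk_of_cross {x y v w : Cusp} (hv : Vx a f c d v) (hw : Vx a f c d w)
    (h : Cross x y v w) :
    cN (rk a f c d x) (rk a f c d y) (rk a f c d v) (rk a f c d w) = true := by
  rw [cN_iff]
  rw [cross_iff] at h
  have l1 : ∀ {x : Cusp}, x < v → rk a f c d x < rk a f c d v := rk_lt_vertex hv
  have l2 : ∀ {x : Cusp}, x < w → rk a f c d x < rk a f c d w := rk_lt_vertex hw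
  have l3 : ∀ {x : Cusp}, v < x → rk a f c d v < rk a f c d x := rk_vertex_lt hv
  have l4 : ∀ {x : Cusp}, w < x → rk a f c d w < rk a f c d x := rk_vertex_lt hw
  rcases h with ⟨h1 | h1, h2 | h2⟩ | ⟨h1 | h1, h2 | h2⟩
  · exact Or.inl ⟨Or.inl ⟨l1 h1.1, l3 h1.2⟩, Or.inl ⟨l2 h2.1, l2 h2.2⟩⟩
  · exact Or.inl ⟨Or.inl ⟨l1 h1.1, l3 h1.2⟩, Or.inr ⟨l4 h2.1, l4 h2.2⟩⟩
  · exact Or.inl ⟨Or.inr ⟨l1 h1.1, l3 h1.2⟩, Or.inl ⟨l2 h2.1, l2 h2.2⟩⟩
  · exact Or.inl ⟨Or.inr ⟨l1 h1.1, l3 h1.2⟩, Or.inr ⟨l4 h2.1, l4 h2.2⟩⟩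
  · exact Or.inr ⟨Or.inl ⟨l1 h1.1, l1 h1.2⟩, Or.inl ⟨l2 h2.1, l4 h2.2⟩⟩
  · exact Or.inr ⟨Or.inl ⟨l1 h1.1, l1 h1.2⟩, Or.inr ⟨l2 h2.1, l4 h2.2⟩⟩
  · exact Or.inr ⟨Or.inr ⟨l3 h1.1, l3 h1.2⟩, Or.inl ⟨l2 h2.1, l4 h2.2⟩⟩
  · exact Or.inr ⟨Or.inr ⟨l3 h1.1, l3 h1.2⟩, Or.inr ⟨l2 h2.1, l4 h2.2⟩⟩

theorem vertex_eq {x v : Cusp} (hv : Vx a f c d v) (h : rk a f c d x = rk a f c d v) :
    x = v := by
  rcases lt_trichotomy x v with h1 | h1 | h1
  · have := rk_lt_vertex hv h1; omega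
  · exact h1
  · have := rk_vertex_lt hv h1; omega

/-- The possible ranks of the vertices `a, f, c, d`. -/
def L8 : List (ℕ × ℕ × ℕ × ℕ) :=
  [(1, 5, 3, 7), (7, 3, 1, 5), (5, 1, 7, 3), (3, 7, 5, 1),
   (7, 3, 5, 1), (5, 1, 3, 7), (3, 7, 1, 5), (1, 5, 7, 3)]

theorem rk_vals (h : Cross a f c d) :
    (rk a f c d a, rk a f c d f, rk a f c d c, rk a f c d d) ∈ L8 := by
  have hc := rk_of_cross (a := a) (f := f) (c := c) (d := d) (x := a) (y := f)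
    (Or.inr (Or.inr (Or.inl rfl))) (Or.inr (Or.inr (Or.inr rfl))) h
  have hodd : ∀ v w : Cusp, v ≠ w → rv v w = 0 ∨ rv v w = 2 := by
    intro v w hvw
    rcases lt_or_gt_of_ne hvw with h1 | h1
    · exact Or.inr (rv_gt h1)
    · exact Or.inl (rv_lt h1)
  obtain ⟨n1, n2, n3, n4, n5, n6⟩ : a ≠ f ∧ a ≠ c ∧ a ≠ d ∧ f ≠ c ∧ f ≠ d ∧ c ≠ d := by
    rw [cross_iff] at h
    grind
  have e1 := hodd f a n1.symm
  have e2 := hodd c a n2.symm
  have e3 := hodd d a n3.symm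
  have e4 := hodd a f n1
  have e5 := hodd c f n4.symm
  have e6 := hodd d f n5.symm
  have e7 := hodd a c n2
  have e8 := hodd f c n4
  have e9 := hodd d c n6.symm
  have e10 := hodd a d n3
  have e11 := hodd f d n5
  have e12 := hodd c d n6
  have ha : rk a f c d a = 1 ∨ rk a f c d a = 3 ∨ rk a f c d a = 5 ∨ rk a f c d a = 7 := by
    unfold rk; rw [rv_self]; clear e4 e5 e6 e7 e8 e9 e10 e11 e12; omega
  have hf : rk a f c d f = 1 ∨ rk a f c d f = 3 ∨ rk a f c d f = 5 ∨ rk a f c d f = 7 := by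
    unfold rk; rw [rv_self]; clear e1 e2 e3 e7 e8 e9 e10 e11 e12 ha; omega
  have hcc : rk a f c d c = 1 ∨ rk a f c d c = 3 ∨ rk a f c d c = 5 ∨ rk a f c d c = 7 := by
    unfold rk; rw [rv_self]; clear e4 e5 e6 e1 e2 e3 e10 e11 e12 ha hf; omega
  have hd : rk a f c d d = 1 ∨ rk a f c d d = 3 ∨ rk a f c d d = 5 ∨ rk a f c d d = 7 := by
    unfold rk; rw [rv_self]; clear e4 e5 e6 e7 e8 e9 e1 e2 e3 ha hf hcc; omega
  generalize rk a f c d a = p1 at *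
  generalize rk a f c d f = p2 at *
  generalize rk a f c d c = p3 at *
  generalize rk a f c d d = p4 at *
  clear e1 e2 e3 e4 e5 e6 e7 e8 e9 e10 e11 e12
  rcases ha with rfl | rfl | rfl | rfl <;> rcases hf with rfl | rfl | rfl | rfl <;>
    rcases hcc with rfl | rfl | rfl | rfl <;> rcases hd with rfl | rfl | rfl | rfl <;>
    first
    | decide
    | exact absurd hc (by decide)

/-- The region (0 to 7) of the rank `i`. -/
def eN (va vc i : ℕ) : ℕ :=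
  bif Nat.beq ((va + 2) % 8) (vc % 8) then (i + 8 - va) % 8 else (va + 8 - i) % 8

/-- Finite check, first part. -/
def chk1 (t : ℕ × ℕ × ℕ × ℕ) : Bool :=
  (List.range 9).all fun i => (List.range 9).all fun j => Nat.ble j i ||
    (List.range 9).all fun k => (List.range 9).all fun l => Nat.ble l k ||
      (!(cN (eN t.1 t.2.2.1 i) (eN t.1 t.2.2.1 j) (eN t.1 t.2.2.1 k) (eN t.1 t.2.2.1 l)) ||
        cN i j k l)

/-- Finite check, second part. -/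
def chk2 (t : ℕ × ℕ × ℕ × ℕ) : Bool :=
  (List.range 9).all fun i => (List.range 9).all fun j => Nat.ble j i ||
    [1, 3, 5, 7].all fun k => [1, 3, 5, 7].all fun l => Nat.ble l k ||
      (!(cN i j k l) ||
        cN (eN t.1 t.2.2.1 i) (eN t.1 t.2.2.1 j) (eN t.1 t.2.2.1 k) (eN t.1 t.2.2.1 l))

theorem chk1_true : L8.all chk1 = true := by decide +kernel

theorem chk2_true : L8.all chk2 = true := by decide +kernel

theorem check1_aux {t : ℕ × ℕ × ℕ × ℕ} (ht : t ∈ L8) {i j k l : ℕ} (hi : i < 9) (hj : j < 9)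
    (hk : k < 9) (hl : l < 9) (hij : i < j) (hkl : k < l)
    (h : cN (eN t.1 t.2.2.1 i) (eN t.1 t.2.2.1 j) (eN t.1 t.2.2.1 k) (eN t.1 t.2.2.1 l) = true) :
    cN i j k l = true := by
  have h1 := List.all_eq_true.1 chk1_true t ht
  unfold chk1 at h1
  have h2 := List.all_eq_true.1 (List.all_eq_true.1 h1 i (List.mem_range.2 hi)) j
    (List.mem_range.2 hj)
  rcases Bool.or_eq_true _ _ ▸ h2 with h3 | h3
  · have := Nat.le_of_ble_eq_true h3; omega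
  · have h4 := List.all_eq_true.1 (List.all_eq_true.1 h3 k (List.mem_range.2 hk)) l
      (List.mem_range.2 hl)
    rcases Bool.or_eq_true _ _ ▸ h4 with h5 | h5
    · have := Nat.le_of_ble_eq_true h5; omega
    · rw [h] at h5
      exact h5

theorem eN_check1 {t : ℕ × ℕ × ℕ × ℕ} (ht : t ∈ L8) {i j k l : ℕ} (hi : i < 9) (hj : j < 9)
    (hk : k < 9) (hl : l < 9)
    (h : cN (eN t.1 t.2.2.1 i) (eN t.1 t.2.2.1 j) (eN t.1 t.2.2.1 k) (eN t.1 t.2.2.1 l) = true) :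
    cN i j k l = true := by
  have hne := cN_ne h
  have h1 : i ≠ j := fun e => hne.1 (by rw [e])
  have h2 : k ≠ l := fun e => hne.2 (by rw [e])
  rcases lt_or_gt_of_ne h1 with h3 | h3 <;> rcases lt_or_gt_of_ne h2 with h4 | h4
  · exact check1_aux ht hi hj hk hl h3 h4 h
  · exact cN_swapR (check1_aux ht hi hj hl hk h3 h4 (cN_swapR h))
  · exact cN_swapL (check1_aux ht hj hi hk hl h3 h4 (cN_swapL h))
  · exact cN_swapL (cN_swapR (check1_aux ht hj hi hl hk h3 h4 (cN_swapR (cN_swapL h))))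

theorem check2_aux {t : ℕ × ℕ × ℕ × ℕ} (ht : t ∈ L8) {i j k l : ℕ} (hi : i < 9) (hj : j < 9)
    (hk : k ∈ [1, 3, 5, 7]) (hl : l ∈ [1, 3, 5, 7]) (hij : i < j) (hkl : k < l)
    (h : cN i j k l = true) :
    cN (eN t.1 t.2.2.1 i) (eN t.1 t.2.2.1 j) (eN t.1 t.2.2.1 k) (eN t.1 t.2.2.1 l) = true := by
  have h1 := List.all_eq_true.1 chk2_true t ht
  unfold chk2 at h1
  have h2 := List.all_eq_true.1 (List.all_eq_true.1 h1 i (List.mem_range.2 hi)) j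
    (List.mem_range.2 hj)
  rcases Bool.or_eq_true _ _ ▸ h2 with h3 | h3
  · have := Nat.le_of_ble_eq_true h3; omega
  · have h4 := List.all_eq_true.1 (List.all_eq_true.1 h3 k hk) l hl
    rcases Bool.or_eq_true _ _ ▸ h4 with h5 | h5
    · have := Nat.le_of_ble_eq_true h5; omega
    · rw [h] at h5
      exact h5

theorem eN_check2 {t : ℕ × ℕ × ℕ × ℕ} (ht : t ∈ L8) {i j k l : ℕ} (hi : i < 9) (hj : j < 9)
    (hk : k ∈ [1, 3, 5, 7]) (hl : l ∈ [1, 3, 5, 7]) (h : cN i j k l = true) :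
    cN (eN t.1 t.2.2.1 i) (eN t.1 t.2.2.1 j) (eN t.1 t.2.2.1 k) (eN t.1 t.2.2.1 l) = true := by
  have hne := cN_ne h
  rcases lt_or_gt_of_ne hne.1 with h3 | h3 <;> rcases lt_or_gt_of_ne hne.2 with h4 | h4
  · exact check2_aux ht hi hj hk hl h3 h4 h
  · exact cN_swapR (check2_aux ht hi hj hl hk h3 h4 (cN_swapR h))
  · exact cN_swapL (check2_aux ht hj hi hk hl h3 h4 (cN_swapL h))
  · exact cN_swapL (cN_swapR (check2_aux ht hj hi hl hk h3 h4 (cN_swapR (cN_swapL h))))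

theorem eN_check3 : ∀ t ∈ L8, eN t.1 t.2.2.1 t.1 = 0 ∧ eN t.1 t.2.2.1 t.2.2.1 = 2 ∧
    eN t.1 t.2.2.1 t.2.1 = 4 ∧ eN t.1 t.2.2.1 t.2.2.2 = 6 ∧
    (∀ i < 9, eN t.1 t.2.2.1 i < 8 ∧ (eN t.1 t.2.2.1 i = 0 → i = t.1) ∧
      (eN t.1 t.2.2.1 i = 2 → i = t.2.2.1) ∧ (eN t.1 t.2.2.1 i = 4 → i = t.2.1) ∧
      (eN t.1 t.2.2.1 i = 6 → i = t.2.2.2)) ∧
    t.1 ∈ [1, 3, 5, 7] ∧ t.2.1 ∈ [1, 3, 5, 7] ∧ t.2.2.1 ∈ [1, 3, 5, 7] ∧
    t.2.2.2 ∈ [1, 3, 5, 7] := by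
  decide +kernel

/-- The regions of the quadrilateral `a c f d`: `a, c, f, d` are `0, 2, 4, 6`. -/
theorem exists_reg (h : Cross a f c d) : ∃ reg : Cusp → ℕ, (∀ x, reg x < 8) ∧
    reg a = 0 ∧ reg c = 2 ∧ reg f = 4 ∧ reg d = 6 ∧ (∀ x, reg x = 0 → x = a) ∧
    (∀ x, reg x = 2 → x = c) ∧ (∀ x, reg x = 4 → x = f) ∧ (∀ x, reg x = 6 → x = d) ∧
    (∀ x y x' y', cN (reg x) (reg y) (reg x') (reg y') = true → Cross x y x' y') ∧
    (∀ x y v w, Vx a f c d v → Vx a f c d w →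
      (Cross x y v w ↔ cN (reg x) (reg y) (reg v) (reg w) = true)) := by
  have hv := rk_vals h
  set t : ℕ × ℕ × ℕ × ℕ := (rk a f c d a, rk a f c d f, rk a f c d c, rk a f c d d) with ht
  obtain ⟨h1, h2, h3, h4, h5, h6, h7, h8, h9⟩ := eN_check3 t hv
  have hlt : ∀ x, rk a f c d x < 9 := fun x => Nat.lt_succ_of_le (rk_le x)
  have va : Vx a f c d a := Or.inl rfl
  have vf : Vx a f c d f := Or.inr (Or.inl rfl)
  have vc : Vx a f c d c := Or.inr (Or.inr (Or.inl rfl))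
  have vd : Vx a f c d d := Or.inr (Or.inr (Or.inr rfl))
  have hver : ∀ v, Vx a f c d v → rk a f c d v ∈ [1, 3, 5, 7] := by
    rintro v (rfl | rfl | rfl | rfl)
    · exact h6
    · exact h7
    · exact h8
    · exact h9
  refine ⟨fun x => eN t.1 t.2.2.1 (rk a f c d x), fun x => (h5 _ (hlt x)).1, h1, h2, h3, h4,
    fun x hx => vertex_eq va ((h5 _ (hlt x)).2.1 hx),
    fun x hx => vertex_eq vc ((h5 _ (hlt x)).2.2.1 hx),
    fun x hx => vertex_eq vf ((h5 _ (hlt x)).2.2.2.1 hx),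
    fun x hx => vertex_eq vd ((h5 _ (hlt x)).2.2.2.2 hx), ?_, ?_⟩
  · intro x y x' y' hc
    exact cross_of_rk (eN_check1 hv (hlt x) (hlt y) (hlt x') (hlt y') hc)
  · intro x y v w hv' hw
    constructor
    · intro hc
      exact eN_check2 hv (hlt x) (hlt y) (hver v hv') (hver w hw) (rk_of_cross hv' hw hc)
    · intro hc
      exact cross_of_rk (eN_check1 hv (hlt x) (hlt y) (hlt v) (hlt w) hc)

/-! ## Counting -/

/-- Indicator of the type `{i, j}`. -/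
def mB (i j u v : ℕ) : ℕ := if (u = i ∧ v = j) ∨ (u = j ∧ v = i) then 1 else 0

/-- Indicator of crossing. -/
def xB (k l u v : ℕ) : ℕ := if cN u v k l = true then 1 else 0

/-- Indicator of a double crossing. -/
def yB (k l k' l' u v : ℕ) : ℕ := if cN u v k l = true ∧ cN u v k' l' = true then 1 else 0

theorem pt_cd : ∀ u < 8, ∀ v < 8, xB 2 6 u v = mB 1 3 u v + mB 5 7 u v + mB 1 5 u v +
    mB 3 7 u v + mB 0 3 u v + mB 0 5 u v + mB 4 7 u v + mB 4 1 u v + mB 0 4 u v := by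
  decide

theorem pt_af : ∀ u < 8, ∀ v < 8, mB 2 6 u v = 0 → xB 0 4 u v = mB 1 7 u v + mB 3 5 u v +
    mB 1 5 u v + mB 3 7 u v + mB 2 5 u v + mB 2 7 u v + mB 6 1 u v + mB 6 3 u v := by
  decide

theorem pt_ac : ∀ u < 8, ∀ v < 8, xB 0 2 u v = mB 1 7 u v + mB 1 3 u v + mB 1 5 u v +
    mB 4 1 u v + mB 6 1 u v := by
  decide

theorem pt_fc : ∀ u < 8, ∀ v < 8, xB 4 2 u v = mB 1 3 u v + mB 3 5 u v + mB 3 7 u v +
    mB 0 3 u v + mB 6 3 u v := by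
  decide

theorem pt_fd : ∀ u < 8, ∀ v < 8, xB 4 6 u v = mB 3 5 u v + mB 5 7 u v + mB 1 5 u v +
    mB 0 5 u v + mB 2 5 u v := by
  decide

theorem pt_ad : ∀ u < 8, ∀ v < 8, xB 0 6 u v = mB 5 7 u v + mB 1 7 u v + mB 3 7 u v +
    mB 4 7 u v + mB 2 7 u v := by
  decide

theorem pt_cdac : ∀ u < 8, ∀ v < 8, yB 2 6 0 2 u v = mB 1 3 u v + mB 1 5 u v + mB 4 1 u v := by
  decide

theorem pt_cdad : ∀ u < 8, ∀ v < 8, yB 2 6 0 6 u v = mB 5 7 u v + mB 3 7 u v + mB 4 7 u v := by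
  decide

theorem pt_cdfc : ∀ u < 8, ∀ v < 8, yB 2 6 4 2 u v = mB 1 3 u v + mB 3 7 u v + mB 0 3 u v := by
  decide

theorem pt_cdfd : ∀ u < 8, ∀ v < 8, yB 2 6 4 6 u v = mB 5 7 u v + mB 1 5 u v + mB 0 5 u v := by
  decide

theorem pt_a : ∀ v < 8, cN 0 v 2 6 = true → mB 0 3 0 v + mB 0 5 0 v + mB 0 4 0 v ≠ 0 := by
  decide

theorem pt_d : ∀ v < 8, cN 6 v 0 2 = true → mB 6 1 6 v ≠ 0 := by
  decide

theorem pt_c : ∀ v < 8, cN 2 v 0 6 = true → mB 2 7 2 v ≠ 0 := by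
  decide

/-- MFBG, unfolded form. -/
theorem mfbg' (hF : FamFinStatement) (G : Subgroup SLZ) (κ : Type) [Finite κ] (Q : Fam κ)
    (hQ : Q.NonCross G) (a f c d : Cusp) (h : Cross a f c d) (hcd : ¬ Q.E G c d) :
    ∃ na nc nf nd P P' A1 A2 F1 F2 C1 C2 D1 D2 AF : ℕ,
      XQ G Q c d = nc + nd + P + P' + A1 + A2 + F1 + F2 + AF ∧
      XQ G Q a f = na + nf + P + P' + C1 + C2 + D1 + D2 ∧
      XQ G Q a c = na + nc + P + F2 + D1 ∧ XQ G Q f c = nc + nf + P' + A1 + D2 ∧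
      XQ G Q f d = nf + nd + P + A2 + C1 ∧ XQ G Q a d = nd + na + P' + F1 + C2 ∧
      YQ G Q c d a c = nc + P + F2 ∧ YQ G Q c d a d = nd + P' + F1 ∧
      YQ G Q c d f c = nc + P' + A1 ∧ YQ G Q c d f d = nd + P + A2 ∧
      (A1 + A2 + AF = 0 → ∀ s t, Q.E G s t → Cross s t c d → s ≠ a) ∧
      (D1 = 0 → ∀ s t, Q.E G s t → Cross s t a c → s ≠ d) ∧
      (C2 = 0 → ∀ s t, Q.E G s t → Cross s t a d → s ≠ c) ∧
      (P = 0 ∨ P' + A1 + F1 + AF + C2 + D2 = 0) ∧ (P' = 0 ∨ A2 + F2 + AF + C1 + D1 = 0) ∧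
      (AF = 0 ∨ C1 + C2 + D1 + D2 + na + nf = 0) ∧ (A1 = 0 ∨ C1 + C2 + D1 + F2 + na = 0) ∧
      (A2 = 0 ∨ D1 + D2 + C2 + F1 + na = 0) ∧ (F1 = 0 ∨ D1 + D2 + C1 + nf = 0) ∧
      (F2 = 0 ∨ C1 + C2 + D2 + nf = 0) ∧ (C1 = 0 ∨ nc = 0) ∧ (C2 = 0 ∨ nc = 0) ∧
      (D1 = 0 ∨ nd = 0) ∧ (D2 = 0 ∨ nd = 0) := by
  classical
  obtain ⟨reg, hlt, ra, rc, rf, rd, ea, ec, ef, ed, hcr, hv⟩ := exists_reg h
  have va : Vx a f c d a := Or.inl rfl
  have vf : Vx a f c d f := Or.inr (Or.inl rfl)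
  have vc : Vx a f c d c := Or.inr (Or.inr (Or.inl rfl))
  have vd : Vx a f c d d := Or.inr (Or.inr (Or.inr rfl))
  have _ := Fintype.ofFinite κ
  have hfin : {p : Cusp × Cusp | Q.E G p.1 p.2 ∧ (Cross p.1 p.2 c d ∨ Cross p.1 p.2 a f ∨
      Cross p.1 p.2 a c ∨ Cross p.1 p.2 f c ∨ Cross p.1 p.2 f d ∨ Cross p.1 p.2 a d)}.Finite := by
    refine (((((((hF G κ Q c d).union (hF G κ Q a f)).union (hF G κ Q a c)).union
      (hF G κ Q f c)).union (hF G κ Q f d)).union (hF G κ Q a d))).subset ?_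
    rintro p ⟨hp, h1 | h1 | h1 | h1 | h1 | h1⟩
    · exact Or.inl (Or.inl (Or.inl (Or.inl (Or.inl ⟨hp, h1⟩))))
    · exact Or.inl (Or.inl (Or.inl (Or.inl (Or.inr ⟨hp, h1⟩))))
    · exact Or.inl (Or.inl (Or.inl (Or.inr ⟨hp, h1⟩)))
    · exact Or.inl (Or.inl (Or.inr ⟨hp, h1⟩))
    · exact Or.inl (Or.inr ⟨hp, h1⟩)
    · exact Or.inr ⟨hp, h1⟩
  set F : Finset (Cusp × Cusp) := hfin.toFinset with hFdef
  have hmem : ∀ p : Cusp × Cusp, p ∈ F ↔ Q.E G p.1 p.2 ∧ (Cross p.1 p.2 c d ∨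
      Cross p.1 p.2 a f ∨ Cross p.1 p.2 a c ∨ Cross p.1 p.2 f c ∨ Cross p.1 p.2 f d ∨
      Cross p.1 p.2 a d) := by
    intro p; rw [hFdef, Set.Finite.mem_toFinset]; rfl
  have hX : ∀ x y, Vx a f c d x → Vx a f c d y →
      (∀ p : Cusp × Cusp, Q.E G p.1 p.2 → Cross p.1 p.2 x y → p ∈ F) →
      XQ G Q x y = ∑ p ∈ F, xB (reg x) (reg y) (reg p.1) (reg p.2) := by
    intro x y hx hy hxy
    unfold XQ
    have h1 : {p : Cusp × Cusp | Q.E G p.1 p.2 ∧ Cross p.1 p.2 x y} =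
        ((F.filter fun p => cN (reg p.1) (reg p.2) (reg x) (reg y) = true :
          Finset (Cusp × Cusp)) : Set (Cusp × Cusp)) := by
      ext p
      rw [Set.mem_ofPred_eq, Finset.mem_coe, Finset.mem_filter, ← hv p.1 p.2 x y hx hy]
      constructor
      · rintro ⟨h2, h3⟩; exact ⟨hxy p h2 h3, h3⟩
      · rintro ⟨h2, h3⟩; exact ⟨((hmem p).1 h2).1, h3⟩
    rw [h1, Set.ncard_coe_finset, Finset.card_filter]
    rfl
  have hY : ∀ x y z w, Vx a f c d x → Vx a f c d y → Vx a f c d z → Vx a f c d w →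
      (∀ p : Cusp × Cusp, Q.E G p.1 p.2 → Cross p.1 p.2 x y → p ∈ F) →
      YQ G Q x y z w = ∑ p ∈ F, yB (reg x) (reg y) (reg z) (reg w) (reg p.1) (reg p.2) := by
    intro x y z w hx hy hz hw hxy
    unfold YQ
    have h1 : {p : Cusp × Cusp | Q.E G p.1 p.2 ∧ Cross p.1 p.2 x y ∧ Cross p.1 p.2 z w} =
        ((F.filter fun p => cN (reg p.1) (reg p.2) (reg x) (reg y) = true ∧
          cN (reg p.1) (reg p.2) (reg z) (reg w) = true :
          Finset (Cusp × Cusp)) : Set (Cusp × Cusp)) := by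
      ext p
      rw [Set.mem_ofPred_eq, Finset.mem_coe, Finset.mem_filter, ← hv p.1 p.2 x y hx hy,
        ← hv p.1 p.2 z w hz hw]
      constructor
      · rintro ⟨h2, h3, h4⟩; exact ⟨hxy p h2 h3, h3, h4⟩
      · rintro ⟨h2, h3, h4⟩; exact ⟨((hmem p).1 h2).1, h3, h4⟩
    rw [h1, Set.ncard_coe_finset, Finset.card_filter]
    rfl
  have m1 : ∀ p : Cusp × Cusp, Q.E G p.1 p.2 → Cross p.1 p.2 c d → p ∈ F :=
    fun p h1 h2 => (hmem p).2 ⟨h1, Or.inl h2⟩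
  have m2 : ∀ p : Cusp × Cusp, Q.E G p.1 p.2 → Cross p.1 p.2 a f → p ∈ F :=
    fun p h1 h2 => (hmem p).2 ⟨h1, Or.inr (Or.inl h2)⟩
  have m3 : ∀ p : Cusp × Cusp, Q.E G p.1 p.2 → Cross p.1 p.2 a c → p ∈ F :=
    fun p h1 h2 => (hmem p).2 ⟨h1, Or.inr (Or.inr (Or.inl h2))⟩
  have m4 : ∀ p : Cusp × Cusp, Q.E G p.1 p.2 → Cross p.1 p.2 f c → p ∈ F :=
    fun p h1 h2 => (hmem p).2 ⟨h1, Or.inr (Or.inr (Or.inr (Or.inl h2)))⟩
  have m5 : ∀ p : Cusp × Cusp, Q.E G p.1 p.2 → Cross p.1 p.2 f d → p ∈ F :=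
    fun p h1 h2 => (hmem p).2 ⟨h1, Or.inr (Or.inr (Or.inr (Or.inr (Or.inl h2))))⟩
  have m6 : ∀ p : Cusp × Cusp, Q.E G p.1 p.2 → Cross p.1 p.2 a d → p ∈ F :=
    fun p h1 h2 => (hmem p).2 ⟨h1, Or.inr (Or.inr (Or.inr (Or.inr (Or.inr h2))))⟩
  have hcd' : ∀ p ∈ F, mB 2 6 (reg p.1) (reg p.2) = 0 := by
    intro p hp
    unfold mB
    rw [if_neg]
    have hE := ((hmem p).1 hp).1
    rintro (⟨h1, h2⟩ | ⟨h1, h2⟩)
    · rw [ec _ h1, ed _ h2] at hE; exact hcd hE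
    · rw [ed _ h1, ec _ h2] at hE; exact hcd hE.symm
  have hone : ∀ (i j : ℕ) (p : Cusp × Cusp), p ∈ F → mB i j (reg p.1) (reg p.2) ≠ 0 →
      ∑ p ∈ F, mB i j (reg p.1) (reg p.2) ≠ 0 := by
    intro i j p hp h1 h2
    exact h1 (Finset.sum_eq_zero_iff.1 h2 p hp)
  have hinc : ∀ i j k l : ℕ, cN i j k l = true → ∑ p ∈ F, mB i j (reg p.1) (reg p.2) = 0 ∨
      ∑ p ∈ F, mB k l (reg p.1) (reg p.2) = 0 := by
    intro i j k l hc
    by_contra hcon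
    rw [not_or] at hcon
    obtain ⟨h1, h2⟩ := hcon
    obtain ⟨p, hp, hp'⟩ := Finset.exists_ne_zero_of_sum_ne_zero h1
    obtain ⟨q, hq, hq'⟩ := Finset.exists_ne_zero_of_sum_ne_zero h2
    have hp1 : (reg p.1 = i ∧ reg p.2 = j) ∨ (reg p.1 = j ∧ reg p.2 = i) := by
      by_contra hn; exact hp' (if_neg hn)
    have hq1 : (reg q.1 = k ∧ reg q.2 = l) ∨ (reg q.1 = l ∧ reg q.2 = k) := by
      by_contra hn; exact hq' (if_neg hn)
    refine hQ.nocross _ _ _ _ ((hmem p).1 hp).1 ((hmem q).1 hq).1 (hcr _ _ _ _ ?_)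
    rcases hp1 with ⟨h3, h4⟩ | ⟨h3, h4⟩ <;> rcases hq1 with ⟨h5, h6⟩ | ⟨h5, h6⟩ <;>
      rw [h3, h4, h5, h6]
    · exact hc
    · exact cN_swapR hc
    · exact cN_swapL hc
    · exact cN_swapL (cN_swapR hc)
  refine ⟨∑ p ∈ F, mB 1 7 (reg p.1) (reg p.2), ∑ p ∈ F, mB 1 3 (reg p.1) (reg p.2),
    ∑ p ∈ F, mB 3 5 (reg p.1) (reg p.2), ∑ p ∈ F, mB 5 7 (reg p.1) (reg p.2),
    ∑ p ∈ F, mB 1 5 (reg p.1) (reg p.2), ∑ p ∈ F, mB 3 7 (reg p.1) (reg p.2),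
    ∑ p ∈ F, mB 0 3 (reg p.1) (reg p.2), ∑ p ∈ F, mB 0 5 (reg p.1) (reg p.2),
    ∑ p ∈ F, mB 4 7 (reg p.1) (reg p.2), ∑ p ∈ F, mB 4 1 (reg p.1) (reg p.2),
    ∑ p ∈ F, mB 2 5 (reg p.1) (reg p.2), ∑ p ∈ F, mB 2 7 (reg p.1) (reg p.2),
    ∑ p ∈ F, mB 6 1 (reg p.1) (reg p.2), ∑ p ∈ F, mB 6 3 (reg p.1) (reg p.2),
    ∑ p ∈ F, mB 0 4 (reg p.1) (reg p.2), ?_, ?_, ?_, ?_, ?_, ?_, ?_, ?_, ?_, ?_, ?_, ?_, ?_,
    ?_, ?_, ?_, ?_, ?_, ?_, ?_, ?_, ?_, ?_, ?_⟩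
  · rw [hX c d vc vd m1, rc, rd]
    simp only [← Finset.sum_add_distrib]
    exact Finset.sum_congr rfl fun p _ => pt_cd _ (hlt _) _ (hlt _)
  · rw [hX a f va vf m2, ra, rf]
    simp only [← Finset.sum_add_distrib]
    exact Finset.sum_congr rfl fun p hp => pt_af _ (hlt _) _ (hlt _) (hcd' p hp)
  · rw [hX a c va vc m3, ra, rc]
    simp only [← Finset.sum_add_distrib]
    exact Finset.sum_congr rfl fun p _ => pt_ac _ (hlt _) _ (hlt _)
  · rw [hX f c vf vc m4, rf, rc]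
    simp only [← Finset.sum_add_distrib]
    exact Finset.sum_congr rfl fun p _ => pt_fc _ (hlt _) _ (hlt _)
  · rw [hX f d vf vd m5, rf, rd]
    simp only [← Finset.sum_add_distrib]
    exact Finset.sum_congr rfl fun p _ => pt_fd _ (hlt _) _ (hlt _)
  · rw [hX a d va vd m6, ra, rd]
    simp only [← Finset.sum_add_distrib]
    exact Finset.sum_congr rfl fun p _ => pt_ad _ (hlt _) _ (hlt _)
  · rw [hY c d a c vc vd va vc m1, rc, rd, ra]
    simp only [← Finset.sum_add_distrib]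
    exact Finset.sum_congr rfl fun p _ => pt_cdac _ (hlt _) _ (hlt _)
  · rw [hY c d a d vc vd va vd m1, rc, rd, ra]
    simp only [← Finset.sum_add_distrib]
    exact Finset.sum_congr rfl fun p _ => pt_cdad _ (hlt _) _ (hlt _)
  · rw [hY c d f c vc vd vf vc m1, rc, rd, rf]
    simp only [← Finset.sum_add_distrib]
    exact Finset.sum_congr rfl fun p _ => pt_cdfc _ (hlt _) _ (hlt _)
  · rw [hY c d f d vc vd vf vd m1, rc, rd, rf]
    simp only [← Finset.sum_add_distrib]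
    exact Finset.sum_congr rfl fun p _ => pt_cdfd _ (hlt _) _ (hlt _)
  · rintro h0 s t hst hcross rfl
    have h1 := (hv s t c d vc vd).1 hcross
    rw [ra, rc, rd] at h1
    have h2 := pt_a _ (hlt t) h1
    have hp := m1 (s, t) hst hcross
    have h3 := hone 0 3 (s, t) hp
    have h4 := hone 0 5 (s, t) hp
    have h5 := hone 0 4 (s, t) hp
    simp only [ra] at h3 h4 h5
    generalize mB 0 3 0 (reg t) = q1 at *
    generalize mB 0 5 0 (reg t) = q2 at *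
    generalize mB 0 4 0 (reg t) = q3 at *
    omega
  · rintro h0 s t hst hcross rfl
    have h1 := (hv s t a c va vc).1 hcross
    rw [ra, rc, rd] at h1
    have hp := m3 (s, t) hst hcross
    refine hone 6 1 (s, t) hp ?_ h0
    simp only [rd]
    exact pt_d _ (hlt t) h1
  · rintro h0 s t hst hcross rfl
    have h1 := (hv s t a d va vd).1 hcross
    rw [ra, rc, rd] at h1
    have hp := m6 (s, t) hst hcross
    refine hone 2 7 (s, t) hp ?_ h0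
    simp only [rc]
    exact pt_c _ (hlt t) h1
  · have h1 := hinc 1 5 3 7 (by decide)
    have h2 := hinc 1 5 0 3 (by decide)
    have h3 := hinc 1 5 4 7 (by decide)
    have h4 := hinc 1 5 0 4 (by decide)
    have h5 := hinc 1 5 2 7 (by decide)
    have h6 := hinc 1 5 6 3 (by decide)
    omega
  · have h2 := hinc 3 7 0 5 (by decide)
    have h3 := hinc 3 7 4 1 (by decide)
    have h4 := hinc 3 7 0 4 (by decide)
    have h5 := hinc 3 7 2 5 (by decide)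
    have h6 := hinc 3 7 6 1 (by decide)
    omega
  · have h1 := hinc 0 4 2 5 (by decide)
    have h2 := hinc 0 4 2 7 (by decide)
    have h3 := hinc 0 4 6 1 (by decide)
    have h4 := hinc 0 4 6 3 (by decide)
    have h5 := hinc 0 4 1 7 (by decide)
    have h6 := hinc 0 4 3 5 (by decide)
    omega
  · have h1 := hinc 0 3 2 5 (by decide)
    have h2 := hinc 0 3 2 7 (by decide)
    have h3 := hinc 0 3 6 1 (by decide)
    have h4 := hinc 0 3 4 1 (by decide)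
    have h5 := hinc 0 3 1 7 (by decide)
    omega
  · have h1 := hinc 0 5 6 1 (by decide)
    have h2 := hinc 0 5 6 3 (by decide)
    have h3 := hinc 0 5 2 7 (by decide)
    have h4 := hinc 0 5 4 7 (by decide)
    have h5 := hinc 0 5 1 7 (by decide)
    omega
  · have h1 := hinc 4 7 6 1 (by decide)
    have h2 := hinc 4 7 6 3 (by decide)
    have h3 := hinc 4 7 2 5 (by decide)
    have h4 := hinc 4 7 3 5 (by decide)
    omega
  · have h1 := hinc 4 1 2 5 (by decide)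
    have h2 := hinc 4 1 2 7 (by decide)
    have h3 := hinc 4 1 6 3 (by decide)
    have h4 := hinc 4 1 3 5 (by decide)
    omega
  · exact hinc 2 5 1 3 (by decide)
  · exact hinc 2 7 1 3 (by decide)
  · exact hinc 6 1 5 7 (by decide)
  · exact hinc 6 3 5 7 (by decide)

/-- MFBG. -/
theorem mfbg (hF : FamFinStatement) : MfbgStatement := by
  intro G κ _ Q hQ a f c d h hcd
  exact mfbg' hF G κ Q hQ a f c d h hcd

end Pool.Agent.Lib.MP_eee7a8_ag.TB.AMfbg
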